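import Mathlib

set_option autoImplicit false
set_option linter.unusedSectionVars false

/-!
# Čech complexes of localizations

For a module `M` over a commutative ring `R` and elements `x_1, …, x_m` we consider the (augmented,
non alternating) Čech complex whose term in degree `p` is the product over all `p`-tuples `i` of
the localizations of `M` at the submonoid generated by `x_{i_1}, …, x_{i_p}`.
-/

namespace Pool.Agent.H472R3.SF

open LocalizedModule

section res

variable {R : Type} [CommRing R] {M : Type} [AddCommGroup M] [Module R M]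

/-- restriction map between localizations -/
noncomputable abbrev res (M : Type) [AddCommGroup M] [Module R M] {S T : Submonoid R} (h : S ≤ T) :
    LocalizedModule S M →ₗ[R] LocalizedModule T M :=
  LocalizedModule.liftOfLE S T h

lemma res_mk {S T : Submonoid R} (h : S ≤ T) (m : M) (s : S) :
    res M h (mk m s) = mk m ⟨s.1, h s.2⟩ := by
  rw [IsLocalizedModule.mk_eq_mk', IsLocalizedModule.mk_eq_mk']
  exact IsLocalizedModule.liftOfLE_mk' _ _ _ _ _ _ _

lemma res_res {S T U : Submonoid R} (h : S ≤ T) (h' : T ≤ U) (y : LocalizedModule S M) :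
    res M h' (res M h y) = res M (h.trans h') y := by
  induction y using LocalizedModule.induction_on with
  | h m s => rw [res_mk, res_mk, res_mk]

/-- the map induced by a linear map on localizations -/
noncomputable abbrev lmap {N : Type} [AddCommGroup N] [Module R N] (S : Submonoid R)
    (f : M →ₗ[R] N) : LocalizedModule S M →ₗ[R] LocalizedModule S N :=
  IsLocalizedModule.map S (mkLinearMap S M) (mkLinearMap S N) f

lemma lmap_mk {N : Type} [AddCommGroup N] [Module R N] (S : Submonoid R)
    (f : M →ₗ[R] N) (m : M) (s : S) : lmap S f (mk m s) = mk (f m) s := by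
  rw [IsLocalizedModule.mk_eq_mk', IsLocalizedModule.mk_eq_mk']
  exact IsLocalizedModule.map_mk' _ _ _ _ _ _

lemma lmap_res {N : Type} [AddCommGroup N] [Module R N] {S T : Submonoid R} (h : S ≤ T)
    (f : M →ₗ[R] N) (y : LocalizedModule S M) :
    lmap T f (res M h y) = res N h (lmap S f y) := by
  induction y using LocalizedModule.induction_on with
  | h m s => rw [res_mk, lmap_mk, lmap_mk, res_mk]

end res

variable {R : Type} [CommRing R] {m : ℕ} (x : Fin m → R)

/-- The submonoid of `R` generated by `x_{i_1}, …, x_{i_p}`. -/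
def mon {p : ℕ} (i : Fin p → Fin m) : Submonoid R :=
  Submonoid.closure (Set.range fun k => x (i k))

lemma mon_le {p : ℕ} (i : Fin (p + 1) → Fin m) (k : Fin (p + 1)) :
    mon x (fun l => i (k.succAbove l)) ≤ mon x i := by
  apply Submonoid.closure_mono
  rintro _ ⟨l, rfl⟩
  exact ⟨k.succAbove l, rfl⟩

lemma mem_mon {p : ℕ} (i : Fin p → Fin m) (k : Fin p) : x (i k) ∈ mon x i :=
  Submonoid.subset_closure ⟨k, rfl⟩

/-- cochains of degree `p` -/
abbrev Coch (M : Type) [AddCommGroup M] [Module R M] (p : ℕ) : Type :=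
  ∀ i : Fin p → Fin m, LocalizedModule (mon x i) M

/-- the differential -/
noncomputable def dd (M : Type) [AddCommGroup M] [Module R M] (p : ℕ) :
    Coch x M p →ₗ[R] Coch x M (p + 1) :=
  LinearMap.pi fun i => ∑ k : Fin (p + 1),
    ((-1 : R) ^ (k : ℕ)) • (res M (mon_le x i k)).comp
      (LinearMap.proj (R := R) (φ := fun i : Fin p → Fin m => LocalizedModule (mon x i) M)
        (fun l => i (k.succAbove l)))

variable {M N : Type} [AddCommGroup M] [Module R M] [AddCommGroup N] [Module R N]

lemma dd_apply {p : ℕ} (c : Coch x M p) (i : Fin (p + 1) → Fin m) :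
    dd x M p c i = ∑ k : Fin (p + 1), ((-1 : R) ^ (k : ℕ)) •
      res M (mon_le x i k) (c (fun l => i (k.succAbove l))) := by
  simp [dd]

lemma res_congr {p : ℕ} (c : Coch x M p) {i j : Fin p → Fin m} (h : i = j) {T : Submonoid R}
    (hi : mon x i ≤ T) (hj : mon x j ≤ T) : res M hi (c i) = res M hj (c j) := by
  subst h; rfl

theorem dd_dd {p : ℕ} (c : Coch x M p) : dd x M (p + 1) (dd x M p c) = 0 := by
  funext i
  rw [dd_apply]
  simp only [dd_apply, map_sum, map_smul, Finset.smul_sum, smul_smul, res_res, Pi.zero_apply]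
  rw [← Finset.sum_product']
  refine Finset.sum_involution (fun a _ => (a.1.succAbove a.2, a.2.predAbove a.1)) ?_ ?_ ?_ ?_
  · rintro ⟨k, l⟩ -
    have h1 : (fun t => i (k.succAbove (l.succAbove t))) =
        (fun t => i ((k.succAbove l).succAbove ((l.predAbove k).succAbove t))) := by
      funext t
      rw [Fin.succAbove_succAbove_succAbove_predAbove]
    have h2 := res_congr x c h1 (T := mon x i)
      ((mon_le x (fun t => i (k.succAbove t)) l).trans (mon_le x i k))
      ((mon_le x (fun t => i ((k.succAbove l).succAbove t)) (l.predAbove k)).trans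
        (mon_le x i (k.succAbove l)))
    dsimp only
    rw [h2, ← add_smul, ← pow_add, ← pow_add, Fin.neg_one_pow_succAbove_add_predAbove,
      add_neg_cancel, zero_smul]
  · rintro ⟨k, l⟩ - _ h
    have h3 := congrArg Prod.fst h
    exact Fin.succAbove_ne k l h3
  · rintro ⟨k, l⟩ -
    exact Finset.mem_univ _
  · rintro ⟨k, l⟩ -
    dsimp only
    rw [Fin.succAbove_succAbove_predAbove]
    refine Prod.ext rfl ?_
    exact Fin.predAbove_predAbove_succAbove _ _

/-- the induced map on cochains -/
noncomputable def cmap (f : M →ₗ[R] N) (p : ℕ) : Coch x M p →ₗ[R] Coch x N p :=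
  LinearMap.pi fun i => (lmap (mon x i) f).comp
    (LinearMap.proj (R := R) (φ := fun i : Fin p → Fin m => LocalizedModule (mon x i) M) i)

lemma cmap_apply (f : M →ₗ[R] N) {p : ℕ} (c : Coch x M p) (i : Fin p → Fin m) :
    cmap x f p c i = lmap (mon x i) f (c i) := rfl

lemma cmap_dd (f : M →ₗ[R] N) {p : ℕ} (c : Coch x M p) :
    cmap x f (p + 1) (dd x M p c) = dd x N p (cmap x f p c) := by
  funext i
  rw [cmap_apply, dd_apply, dd_apply, map_sum]
  refine Finset.sum_congr rfl fun k _ => ?_
  rw [map_smul, lmap_res, cmap_apply]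

lemma cmap_injective {f : M →ₗ[R] N} (hf : Function.Injective f) (p : ℕ) :
    Function.Injective (cmap x f p) := by
  intro c c' h
  funext i
  have := congrFun h i
  exact IsLocalizedModule.map_injective _ _ _ _ hf this

lemma cmap_surjective {f : M →ₗ[R] N} (hf : Function.Surjective f) (p : ℕ) :
    Function.Surjective (cmap x f p) := by
  intro c
  have h : ∀ i, ∃ y, lmap (mon x i) f y = c i := fun i =>
    IsLocalizedModule.map_surjective _ _ _ _ hf (c i)
  choose y hy using h
  exact ⟨y, funext hy⟩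

lemma cmap_exact {P : Type} [AddCommGroup P] [Module R P] {f : M →ₗ[R] N} {g : N →ₗ[R] P}
    (h : Function.Exact f g) (p : ℕ) : Function.Exact (cmap x f p) (cmap x g p) := by
  intro c
  constructor
  · intro hc
    have h1 : ∀ i, ∃ y, lmap (mon x i) f y = c i := fun i =>
      (IsLocalizedModule.map_exact (mon x i) (mkLinearMap _ M) (mkLinearMap _ N)
        (mkLinearMap _ P) f g h (c i)).1 (congrFun hc i)
    choose y hy using h1
    exact ⟨y, funext hy⟩
  · rintro ⟨b, rfl⟩
    funext i
    exact (IsLocalizedModule.map_exact (mon x i) (mkLinearMap _ M) (mkLinearMap _ N)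
        (mkLinearMap _ P) f g h _).2 ⟨b i, rfl⟩

/-- The cohomology of the augmented Čech complex vanishes in degree `p` (cochains on `p`-tuples). -/
def Van (M : Type) [AddCommGroup M] [Module R M] : ℕ → Prop
  | 0 => ∀ c : Coch x M 0, dd x M 0 c = 0 → c = 0
  | (p + 1) => ∀ c : Coch x M (p + 1), dd x M (p + 1) c = 0 → ∃ b : Coch x M p, dd x M p b = c

lemma van_succ {p : ℕ} : Van x M (p + 1) ↔
    ∀ c : Coch x M (p + 1), dd x M (p + 1) c = 0 → ∃ b : Coch x M p, dd x M p b = c := Iff.rfl

section LES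

variable {A B C : Type} [AddCommGroup A] [AddCommGroup B] [AddCommGroup C]
    [Module R A] [Module R B] [Module R C] (f : A →ₗ[R] B) (g : B →ₗ[R] C)
    (hf : Function.Injective f) (hg : Function.Surjective g) (h : Function.Exact f g)

include hf hg h

lemma van_mid {p : ℕ} (h1 : Van x A p) (h3 : Van x C p) : Van x B p := by
  match p with
  | 0 =>
    intro c hc
    have h4 : cmap x g 0 c = 0 := h3 _ (by rw [← cmap_dd, hc, map_zero])
    obtain ⟨a, rfl⟩ := (cmap_exact x h 0 c).1 h4
    have h5 : dd x A 0 a = 0 := by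
      apply cmap_injective x hf 1
      rw [cmap_dd, hc, map_zero]
    rw [h1 a h5, map_zero]
  | p + 1 =>
    intro c hc
    obtain ⟨b', hb'⟩ := h3 (cmap x g _ c) (by rw [← cmap_dd, hc, map_zero])
    obtain ⟨b, rfl⟩ := cmap_surjective x hg p b'
    have h4 : cmap x g (p + 1) (c - dd x B p b) = 0 := by
      rw [map_sub, cmap_dd, hb', sub_self]
    obtain ⟨a, ha⟩ := (cmap_exact x h _ _).1 h4
    have h5 : dd x A (p + 1) a = 0 := by
      apply cmap_injective x hf (p + 2)
      rw [cmap_dd, ha, map_sub, hc, dd_dd, sub_zero, map_zero]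
    obtain ⟨e, rfl⟩ := h1 a h5
    refine ⟨b + cmap x f p e, ?_⟩
    rw [map_add, ← cmap_dd, ha]
    abel

lemma van_right {p : ℕ} (h1 : Van x B p) (h3 : Van x A (p + 1)) : Van x C p := by
  match p with
  | 0 =>
    intro c hc
    obtain ⟨b, rfl⟩ := cmap_surjective x hg 0 c
    have h4 : cmap x g 1 (dd x B 0 b) = 0 := by rw [cmap_dd, hc]
    obtain ⟨a, ha⟩ := (cmap_exact x h _ _).1 h4
    have h5 : dd x A 1 a = 0 := by
      apply cmap_injective x hf 2
      rw [cmap_dd, ha, dd_dd, map_zero]
    obtain ⟨e, rfl⟩ := h3 a h5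
    have h6 : b - cmap x f 0 e = 0 := by
      apply h1
      rw [map_sub, ← cmap_dd, ha, sub_self]
    have h7 : b = cmap x f 0 e := sub_eq_zero.1 h6
    rw [h7]
    exact (cmap_exact x h 0 _).2 ⟨e, rfl⟩
  | p + 1 =>
    intro c hc
    obtain ⟨b, rfl⟩ := cmap_surjective x hg _ c
    have h4 : cmap x g (p + 2) (dd x B (p + 1) b) = 0 := by rw [cmap_dd, hc]
    obtain ⟨a, ha⟩ := (cmap_exact x h _ _).1 h4
    have h5 : dd x A (p + 2) a = 0 := by
      apply cmap_injective x hf (p + 3)
      rw [cmap_dd, ha, dd_dd, map_zero]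
    obtain ⟨e, rfl⟩ := h3 a h5
    obtain ⟨u, hu⟩ := h1 (b - cmap x f (p + 1) e) (by rw [map_sub, ← cmap_dd, ha, sub_self])
    refine ⟨cmap x g p u, ?_⟩
    rw [← cmap_dd, hu, map_sub]
    rw [(cmap_exact x h (p + 1) _).2 ⟨e, rfl⟩, sub_zero]

lemma van_left {p : ℕ} (h1 : Van x C p) (h3 : Van x B (p + 1)) : Van x A (p + 1) := by
  intro c hc
  obtain ⟨b, hb⟩ := h3 (cmap x f _ c) (by rw [← cmap_dd, hc, map_zero])
  have h4 : dd x C p (cmap x g p b) = 0 := by
    rw [← cmap_dd, hb]
    exact (cmap_exact x h (p + 1) _).2 ⟨c, rfl⟩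
  match p with
  | 0 =>
    have h5 := h1 _ h4
    obtain ⟨a, ha⟩ := (cmap_exact x h _ _).1 h5
    refine ⟨a, ?_⟩
    apply cmap_injective x hf
    rw [cmap_dd, ha, hb]
  | p + 1 =>
    obtain ⟨e', he'⟩ := h1 _ h4
    obtain ⟨e, rfl⟩ := cmap_surjective x hg p e'
    have h5 : cmap x g (p + 1) (b - dd x B p e) = 0 := by
      rw [map_sub, cmap_dd, he', sub_self]
    obtain ⟨a, ha⟩ := (cmap_exact x h _ _).1 h5
    refine ⟨a, ?_⟩
    apply cmap_injective x hf
    rw [cmap_dd, ha, map_sub, dd_dd, sub_zero, hb]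

end LES

lemma van_of_equiv (e : M ≃ₗ[R] N) {p : ℕ} (h : Van x M p) : Van x N p := by
  have hs : Van x PUnit.{1} p := by
    have hsub : ∀ q, Subsingleton (Coch x PUnit.{1} q) := fun q => inferInstance
    match p with
    | 0 => intro c _; exact Subsingleton.elim _ _
    | p + 1 => intro c _; exact ⟨0, Subsingleton.elim _ _⟩
  refine van_mid x e.toLinearMap (0 : N →ₗ[R] PUnit.{1}) e.injective (fun _ => ⟨0, rfl⟩) ?_ h hs
  intro y
  exact ⟨fun _ => ⟨e.symm y, by simp⟩, fun _ => rfl⟩

end Pool.Agent.H472R3.SF
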