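import Mathlib
import Pool.Agent.H472R3.SF.Cech

set_option autoImplicit false
set_option linter.unusedSectionVars false

/-!
# Vanishing of Čech cohomology below the depth
-/

namespace Pool.Agent.H472R3.SF

open LocalizedModule
open scoped Pointwise

variable {R : Type} [CommRing R] {m : ℕ} (x : Fin m → R)
variable {M N : Type} [AddCommGroup M] [Module R M] [AddCommGroup N] [Module R N]

lemma mon_cons {p : ℕ} (j : Fin m) (i : Fin p → Fin m) (s : R)
    (hs : s ∈ mon x (Fin.cons j i : Fin (p + 1) → Fin m)) :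
    ∃ n : ℕ, ∃ t ∈ mon x i, s = x j ^ n * t := by
  have h : Set.range (fun k => x ((Fin.cons j i : Fin (p + 1) → Fin m) k)) =
      insert (x j) (Set.range fun k => x (i k)) := by
    ext y
    simp only [Set.mem_range, Set.mem_insert_iff]
    constructor
    · rintro ⟨k, rfl⟩
      refine Fin.cases ?_ (fun k => ?_) k
      · left; rfl
      · right; exact ⟨k, rfl⟩
    · rintro (rfl | ⟨k, rfl⟩)
      · exact ⟨0, rfl⟩
      · exact ⟨k.succ, rfl⟩
  rw [mon, h, Set.insert_eq, Submonoid.closure_union, Submonoid.mem_sup] at hs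
  obtain ⟨a, ha, b, hb, hab⟩ := hs
  rw [Submonoid.mem_closure_singleton] at ha
  obtain ⟨n, rfl⟩ := ha
  exact ⟨n, b, hb, hab.symm⟩

lemma mon_le_cons {p : ℕ} (j : Fin m) (i : Fin p → Fin m) :
    mon x i ≤ mon x (Fin.cons j i : Fin (p + 1) → Fin m) := by
  apply Submonoid.closure_mono
  rintro _ ⟨l, rfl⟩
  exact ⟨l.succ, rfl⟩

lemma exists_res {p : ℕ} (j : Fin m) (i : Fin p → Fin m)
    (y : LocalizedModule (mon x (Fin.cons j i : Fin (p + 1) → Fin m)) M) :
    ∃ n : ℕ, ∃ y' : LocalizedModule (mon x i) M, res M (mon_le_cons x j i) y' = (x j ^ n) • y := by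
  induction y using LocalizedModule.induction_on with
  | h a s =>
    obtain ⟨n, t, ht, hs⟩ := mon_cons x j i s.1 s.2
    refine ⟨n, mk a ⟨t, ht⟩, ?_⟩
    rw [res_mk, LocalizedModule.smul'_mk, LocalizedModule.mk_eq]
    refine ⟨1, ?_⟩
    rw [one_smul, one_smul, Submonoid.mk_smul, Submonoid.smul_def, hs, smul_smul]
    congr 1
    ring

lemma res_eq_zero {p : ℕ} (j : Fin m) (i : Fin p → Fin m) (y : LocalizedModule (mon x i) M)
    (hy : res M (mon_le_cons x j i) y = 0) : ∃ n : ℕ, (x j ^ n) • y = 0 := by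
  induction y using LocalizedModule.induction_on with
  | h a s =>
    rw [res_mk, ← LocalizedModule.zero_mk 1, LocalizedModule.mk_eq] at hy
    obtain ⟨u, hu⟩ := hy
    obtain ⟨n, t, ht, hs⟩ := mon_cons x j i u.1 u.2
    refine ⟨n, ?_⟩
    rw [LocalizedModule.smul'_mk, ← LocalizedModule.zero_mk 1, LocalizedModule.mk_eq]
    refine ⟨⟨t, ht⟩, ?_⟩
    rw [one_smul, smul_zero, smul_zero, Submonoid.smul_def, hs] at hu
    rw [one_smul, smul_zero, smul_zero, Submonoid.mk_smul, smul_smul, mul_comm]
    exact hu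

lemma cons_face {p : ℕ} (j : Fin m) (i : Fin (p + 1) → Fin m) (k : Fin (p + 1)) :
    (fun l => (Fin.cons j i : Fin (p + 2) → Fin m) (k.succ.succAbove l)) =
      (Fin.cons j (fun l => i (k.succAbove l)) : Fin (p + 1) → Fin m) := by
  funext l
  refine Fin.cases ?_ (fun l => ?_) l
  · simp
  · simp [Fin.succ_succAbove_succ]

lemma kill_zero (j : Fin m) (c : Coch x M 0) (hc : dd x M 0 c = 0) :
    ∃ n : ℕ, (x j ^ n) • c = 0 := by
  have h := congrFun hc (Fin.cons j (fun k : Fin 0 => k.elim0))
  rw [dd_apply, Fin.sum_univ_one] at h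
  simp only [Fin.val_zero, pow_zero, one_smul, Pi.zero_apply] at h
  have h2 := res_congr x c (i := fun l => (Fin.cons j (fun k : Fin 0 => k.elim0) :
    Fin 1 → Fin m) ((0 : Fin 1).succAbove l)) (j := fun k : Fin 0 => k.elim0)
    (by funext l; exact l.elim0) (T := mon x (Fin.cons j (fun k : Fin 0 => k.elim0) :
    Fin 1 → Fin m)) (mon_le x _ 0) (mon_le_cons x j _)
  rw [h2] at h
  obtain ⟨n, hn⟩ := res_eq_zero x j _ _ h
  refine ⟨n, ?_⟩
  funext i
  have : i = fun k : Fin 0 => k.elim0 := by funext l; exact l.elim0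
  subst this
  exact hn

lemma kill_succ (j : Fin m) {p : ℕ} (c : Coch x M (p + 1)) (hc : dd x M (p + 1) c = 0) :
    ∃ n : ℕ, ∃ b : Coch x M p, dd x M p b = (x j ^ n) • c := by
  classical
  have h1 : ∀ i : Fin p → Fin m, ∃ n : ℕ, ∃ y' : LocalizedModule (mon x i) M,
      res M (mon_le_cons x j i) y' = (x j ^ n) • c (Fin.cons j i) := fun i =>
    exists_res x j i _
  choose n y hy using h1
  let N := ∑ i, n i
  have hN : ∀ i, n i ≤ N := fun i => Finset.single_le_sum (f := n) (fun _ _ => Nat.zero_le _)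
    (Finset.mem_univ i)
  let b' : Coch x M p := fun i => (x j ^ (N - n i)) • y i
  have hb' : ∀ i, res M (mon_le_cons x j i) (b' i) = (x j ^ N) • c (Fin.cons j i) := by
    intro i
    show res M (mon_le_cons x j i) ((x j ^ (N - n i)) • y i) = _
    rw [map_smul, hy, smul_smul, ← pow_add, Nat.sub_add_cancel (hN i)]
  have hz : ∀ i, ∃ n' : ℕ, (x j ^ n') • ((x j ^ N) • c i - dd x M p b' i) = 0 := by
    intro i
    apply res_eq_zero
    rw [map_sub, map_smul, dd_apply, map_sum, sub_eq_zero]
    have h2 := congrFun hc (Fin.cons j i)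
    rw [dd_apply, Fin.sum_univ_succ] at h2
    simp only [Fin.val_zero, pow_zero, one_smul, Pi.zero_apply] at h2
    have h3 : res M (mon_le x (Fin.cons j i : Fin (p + 2) → Fin m) 0)
        (c fun l => (Fin.cons j i : Fin (p + 2) → Fin m) ((0 : Fin (p + 2)).succAbove l)) =
        res M (mon_le_cons x j i) (c i) := by
      apply res_congr
      funext l
      simp
    rw [h3] at h2
    have h4 : ∀ k : Fin (p + 1), res M (mon_le x (Fin.cons j i : Fin (p + 2) → Fin m) k.succ)
        (c fun l => (Fin.cons j i : Fin (p + 2) → Fin m) (k.succ.succAbove l)) =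
        res M (by
          rw [← cons_face]
          exact mon_le x (Fin.cons j i : Fin (p + 2) → Fin m) k.succ)
          (c (Fin.cons j (fun l => i (k.succAbove l)))) := by
      intro k
      apply res_congr
      exact cons_face j i k
    simp only [h4] at h2
    have h5 : res M (mon_le_cons x j i) (c i) = ∑ k : Fin (p + 1), ((-1 : R) ^ (k : ℕ)) •
        res M (by
          rw [← cons_face]
          exact mon_le x (Fin.cons j i : Fin (p + 2) → Fin m) k.succ)
          (c (Fin.cons j (fun l => i (k.succAbove l)))) := by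
      rw [eq_comm, ← sub_eq_zero, ← neg_eq_zero, neg_sub, sub_eq_add_neg, ← Finset.sum_neg_distrib]
      rw [← h2]
      congr 1
      refine Finset.sum_congr rfl fun k _ => ?_
      rw [Fin.val_succ, pow_succ, mul_neg_one, neg_smul]
    rw [h5, Finset.smul_sum]
    refine Finset.sum_congr rfl fun k _ => ?_
    rw [smul_comm, map_smul]
    congr 1
    rw [← map_smul, ← hb', res_res, res_res]
  choose n' hn' using hz
  let N' := ∑ i, n' i
  have hN' : ∀ i, n' i ≤ N' := fun i => Finset.single_le_sum (f := n') (fun _ _ => Nat.zero_le _)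
    (Finset.mem_univ i)
  refine ⟨N' + N, (x j ^ N') • b', ?_⟩
  rw [map_smul]
  funext i
  have h6 : (x j ^ N') • ((x j ^ N) • c i - dd x M p b' i) = 0 := by
    rw [← Nat.sub_add_cancel (hN' i), pow_add, mul_smul, hn', smul_zero]
  rw [smul_sub, sub_eq_zero, smul_smul, ← pow_add] at h6
  exact h6.symm

/-- multiplication by a scalar on cochains -/
lemma cmap_lsmul (r : R) {p : ℕ} (c : Coch x M p) :
    cmap x (LinearMap.lsmul R M r) p c = r • c := by
  funext i
  rw [cmap_apply]
  show lmap _ _ (c i) = r • c i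
  induction c i using LocalizedModule.induction_on with
  | h a s =>
    rw [lmap_mk, LocalizedModule.smul'_mk]
    rfl

lemma exact_lsmul (r : R) :
    Function.Exact (LinearMap.lsmul R M r) (Submodule.mkQ (r • (⊤ : Submodule R M))) := by
  intro y
  rw [Submodule.mkQ_apply, Submodule.Quotient.mk_eq_zero, Submodule.mem_smul_pointwise_iff_exists]
  constructor
  · rintro ⟨b, -, rfl⟩; exact ⟨b, rfl⟩
  · rintro ⟨b, rfl⟩; exact ⟨b, trivial, rfl⟩

lemma van_zero_of_regular (j : Fin m) (h : IsSMulRegular M (x j)) : Van x M 0 := by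
  intro c hc
  obtain ⟨n, hn⟩ := kill_zero x j c hc
  have h1 : IsSMulRegular M (x j ^ n) := h.pow n
  apply cmap_injective x (f := LinearMap.lsmul R M (x j ^ n)) h1
  rw [cmap_lsmul, hn, map_zero]

lemma van_succ_of_regular (j : Fin m) (h : IsSMulRegular M (x j)) {p : ℕ}
    (hq : Van x (QuotSMulTop (x j) M) p) : Van x M (p + 1) := by
  have step : ∀ c : Coch x M (p + 1), dd x M (p + 1) c = 0 →
      (∃ b, dd x M p b = x j • c) → ∃ b, dd x M p b = c := by
    rintro c hc ⟨b, hb⟩
    have h2 : dd x (QuotSMulTop (x j) M) p (cmap x (Submodule.mkQ _) p b) = 0 := by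
      rw [← cmap_dd, hb, ← cmap_lsmul]
      exact (cmap_exact x (exact_lsmul (x j)) _ _).2 ⟨c, rfl⟩
    match p with
    | 0 =>
      obtain ⟨a, ha⟩ := (cmap_exact x (exact_lsmul (x j)) _ _).1 (hq _ h2)
      refine ⟨a, ?_⟩
      apply cmap_injective x (f := LinearMap.lsmul R M (x j)) h
      rw [cmap_dd, ha, hb, cmap_lsmul]
    | p + 1 =>
      obtain ⟨e', he'⟩ := hq _ h2
      obtain ⟨e, rfl⟩ := cmap_surjective x (Submodule.mkQ_surjective _) p e'
      have h5 : cmap x (Submodule.mkQ (x j • (⊤ : Submodule R M))) (p + 1) (b - dd x M p e) = 0 := by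
        rw [map_sub, cmap_dd, he', sub_self]
      obtain ⟨a, ha⟩ := (cmap_exact x (exact_lsmul (x j)) _ _).1 h5
      refine ⟨a, ?_⟩
      apply cmap_injective x (f := LinearMap.lsmul R M (x j)) h
      rw [cmap_dd, ha, map_sub, dd_dd, sub_zero, hb, cmap_lsmul]
  intro c hc
  obtain ⟨n, hn⟩ := kill_succ x j c hc
  induction n with
  | zero => simpa using hn
  | succ n ih =>
    apply ih
    apply step
    · rw [map_smul, hc, smul_zero]
    · rwa [smul_smul, ← pow_succ']

theorem van_of_isWeaklyRegular (js : List (Fin m)) : ∀ (M : Type) [AddCommGroup M] [Module R M],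
    RingTheory.Sequence.IsWeaklyRegular M (js.map x) → ∀ p < js.length, Van x M p := by
  induction js with
  | nil => intro M _ _ _ p hp; simp at hp
  | cons j js ih =>
    intro M _ _ h p hp
    rw [List.map_cons, RingTheory.Sequence.isWeaklyRegular_cons_iff] at h
    match p with
    | 0 => exact van_zero_of_regular x j h.1
    | p + 1 =>
      exact van_succ_of_regular x j h.1 (ih _ h.2 p (by simpa using hp))

end Pool.Agent.H472R3.SF
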