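import Mathlib
import Pool.Agent.H472R3.SF.Depth
import Pool.Agent.H158R3.Hilb

set_option autoImplicit false
set_option linter.unusedSectionVars false

/-!
# Vanishing of Čech cohomology for modules of small projective dimension
-/

namespace Pool.Agent.H472R3.SF

open RingTheory.Sequence Pool.Agent.H158R3

open scoped TensorProduct

lemma X_weaklyRegular (K : Type) [Field K] (m : ℕ) :
    IsWeaklyRegular (MvPolynomial (Fin m) K)
      ((List.finRange m).map (MvPolynomial.X : Fin m → MvPolynomial (Fin m) K)) := by
  constructor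
  intro i h
  have hi : i < m := by simpa using h
  have e1 : (Ideal.ofList (((List.finRange m).map
      (MvPolynomial.X : Fin m → MvPolynomial (Fin m) K)).take i) : Ideal _) =
      Ideal.span (MvPolynomial.X '' {j : Fin m | (j : ℕ) < i}) := by
    rw [Ideal.ofList]
    congr 1
    ext r
    simp only [← List.map_take, List.mem_map, Set.mem_image, Set.mem_setOf_eq]
    constructor
    · rintro ⟨j, hj, rfl⟩
      refine ⟨j, ?_, rfl⟩
      rw [List.mem_take_iff_getElem] at hj
      obtain ⟨k, hk, rfl⟩ := hj
      simp only [List.getElem_finRange, Fin.val_cast]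
      simp at hk
      exact hk.1
    · rintro ⟨j, hj, rfl⟩
      refine ⟨j, ?_, rfl⟩
      rw [List.mem_take_iff_getElem]
      refine ⟨j, ?_, ?_⟩
      · simpa using hj
      · simp
  rw [e1]
  rw [isSMulRegular_quotient_iff_mem_of_smul_mem]
  intro f hf
  have hs : ∀ I : Ideal (MvPolynomial (Fin m) K),
      (I • (⊤ : Submodule (MvPolynomial (Fin m) K) (MvPolynomial (Fin m) K))) = I := by
    intro I; simp
  rw [hs] at hf ⊢
  rw [MvPolynomial.mem_ideal_span_X_image] at hf ⊢
  intro mo hmo
  have hget : ((List.finRange m).map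
      (MvPolynomial.X : Fin m → MvPolynomial (Fin m) K))[i] = MvPolynomial.X ⟨i, hi⟩ := by
    simp
  rw [hget] at hf
  obtain ⟨j, hj, hj2⟩ := hf (mo + Finsupp.single ⟨i, hi⟩ 1) (by
    rw [MvPolynomial.mem_support_iff, smul_eq_mul, mul_comm, MvPolynomial.coeff_mul_X]
    exact MvPolynomial.mem_support_iff.1 hmo)
  refine ⟨j, hj, ?_⟩
  rw [Finsupp.add_apply, Finsupp.single_apply, if_neg, add_zero] at hj2
  · exact hj2
  · intro h3
    rw [← h3] at hj
    simp at hj

lemma van_projective {K : Type} [Field K] {m : ℕ} (P : Type) [AddCommGroup P]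
    [Module (MvPolynomial (Fin m) K) P] [Module.Projective (MvPolynomial (Fin m) K) P] (p : ℕ)
    (hp : p < m) : Van (MvPolynomial.X : Fin m → MvPolynomial (Fin m) K) P p := by
  have h1 := (X_weaklyRegular K m).isWeaklyRegular_lTensor (M₂ := P)
  have h2 := ((TensorProduct.rid (MvPolynomial (Fin m) K) P).isWeaklyRegular_congr _).1 h1
  exact van_of_isWeaklyRegular _ (List.finRange m) P h2 p (by simpa using hp)

theorem van_of_pdLT {K : Type} [Field K] {m : ℕ} (k : ℕ) : ∀ (M : Type) [AddCommGroup M]
    [Module (MvPolynomial (Fin m) K) M], PdLT (MvPolynomial (Fin m) K) M (k + 1) →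
    ∀ p, p + k < m → Van (MvPolynomial.X : Fin m → MvPolynomial (Fin m) K) M p := by
  induction k with
  | zero =>
    intro M _ _ h p hp
    haveI := projective_of_pdLT_one h
    exact van_projective M p hp
  | succ k ih =>
    intro M _ _ h p hp
    let R := MvPolynomial (Fin m) K
    let π : (M →₀ R) →ₗ[R] M := Finsupp.linearCombination R id
    have hπ : Function.Surjective π := Finsupp.linearCombination_id_surjective R M
    have hK : PdLT R (LinearMap.ker π) (k + 1) :=
      pdLT_left (LinearMap.ker π).subtype π (Submodule.injective_subtype _) hπ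
        (LinearMap.exact_subtype_ker_map π)
        (pdLT_mono (by omega) (pdLT_one_of_projective inferInstance)) h
    exact van_right _ (LinearMap.ker π).subtype π (Submodule.injective_subtype _) hπ
        (LinearMap.exact_subtype_ker_map π) (van_projective _ p (by omega))
        (ih _ hK (p + 1) (by omega))

end Pool.Agent.H472R3.SF
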