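import Mathlib
import Pool.Agent.H472R3.SF.Pdim

set_option autoImplicit false
set_option linter.unusedSectionVars false

/-!
# Restriction of scalars along a ring isomorphism
-/

namespace Pool.Agent.H472R3.SF

open Pool.Agent.H158R3

variable {R R' : Type} [CommRing R] [CommRing R'] (e : R ≃+* R')

/-- restriction of scalars along a ring isomorphism, as a type synonym -/
def Pull (_ : R ≃+* R') (M : Type) : Type := M

instance (M : Type) [AddCommGroup M] : AddCommGroup (Pull e M) := inferInstanceAs (AddCommGroup M)

instance instModulePull (M : Type) [AddCommGroup M] [Module R' M] : Module R (Pull e M) :=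
  Module.compHom M e.toRingHom

variable {M N P : Type} [AddCommGroup M] [AddCommGroup N] [AddCommGroup P] [Module R' M]
  [Module R' N] [Module R' P]

/-- the identity -/
def toPull (y : M) : Pull e M := y

lemma pull_smul (r : R) (y : M) : r • toPull e y = toPull e (e r • y) := rfl

/-- functoriality -/
def pullMap (f : M →ₗ[R'] N) : Pull e M →ₗ[R] Pull e N where
  toFun := fun y => f y
  map_add' := fun y z => f.map_add y z
  map_smul' := fun r y => f.map_smul (e r) y

lemma pullMap_apply (f : M →ₗ[R'] N) (y : M) : pullMap e f (toPull e y) = toPull e (f y) := rfl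

lemma pullMap_injective {f : M →ₗ[R'] N} (h : Function.Injective f) :
    Function.Injective (pullMap e f) := h

lemma pullMap_surjective {f : M →ₗ[R'] N} (h : Function.Surjective f) :
    Function.Surjective (pullMap e f) := h

lemma pullMap_exact {f : M →ₗ[R'] N} {g : N →ₗ[R'] P} (h : Function.Exact f g) :
    Function.Exact (pullMap e f) (pullMap e g) := h

lemma pdLT_pull {n : ℕ} (h : PdLT R' M (n + 1)) : PdLT R (Pull e M) (n + 1) :=
  pdLT_of_ringEquiv e.symm M (Pull e M) (AddEquiv.refl M) (fun r m => by
    show r • m = e (e.symm r) • m
    rw [RingEquiv.apply_symm_apply]) h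

end Pool.Agent.H472R3.SF
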