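import Mathlib
import Pool.Agent.H472R3.SF.Pull
import Pool.Agent.H158R3.GoodBad

set_option autoImplicit false
set_option linter.unusedSectionVars false

/-!
# A socle element gives a nonzero Čech class
-/

namespace Pool.Agent.H472R3.SF

open Pool.Agent.H158R3 LocalizedModule

variable {K : Type} [Field K] {l : ℕ}

/-- `Q[x_0]` as a module over the polynomial ring in `l + 1` variables -/
abbrev PQ (K : Type) [Field K] (l : ℕ) (Q : Type) [AddCommGroup Q]
    [Module (MvPolynomial (Fin l) K) Q] : Type :=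
  Pull (MvPolynomial.finSuccEquiv K l).toRingEquiv (PolynomialModule (MvPolynomial (Fin l) K) Q)

lemma X_pow_coeff {R : Type} [CommRing R] {Q : Type} [AddCommGroup Q] [Module R Q] (p : ℕ)
    (y : PolynomialModule R Q) (k : ℕ) (hk : k < p) :
    ((Polynomial.X : Polynomial R) ^ p • y).coeff k = 0 := by
  rw [← Polynomial.monomial_one_right_eq_X_pow, PolynomialModule.monomial_smul_apply]
  rw [if_neg (by omega)]

lemma X_pow_coeff' {R : Type} [CommRing R] {Q : Type} [AddCommGroup Q] [Module R Q] (p : ℕ)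
    (y : PolynomialModule R Q) :
    ((Polynomial.X : Polynomial R) ^ p • y).coeff p = y.coeff 0 := by
  rw [← Polynomial.monomial_one_right_eq_X_pow, PolynomialModule.monomial_smul_apply]
  simp

theorem not_van_one (Q : Type) [AddCommGroup Q] [Module (MvPolynomial (Fin l) K) Q] (q : Q)
    (hq : q ≠ 0) (hs : ∀ j : Fin l, (MvPolynomial.X j : MvPolynomial (Fin l) K) • q = 0) :
    ¬ Van (MvPolynomial.X : Fin (l + 1) → MvPolynomial (Fin (l + 1)) K) (PQ K l Q) 1 := by
  intro hv
  let R := MvPolynomial (Fin l) K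
  let x : Fin (l + 1) → MvPolynomial (Fin (l + 1)) K := MvPolynomial.X
  let β' : PolynomialModule R Q := PolynomialModule.single R 0 q
  let β : PQ K l Q := β'
  have hβ : ∀ j : Fin l, x j.succ • β = 0 := by
    intro j
    show (MvPolynomial.finSuccEquiv K l (MvPolynomial.X j.succ)) • β' = 0
    rw [MvPolynomial.finSuccEquiv_X_succ, ← Polynomial.monomial_zero_left,
      PolynomialModule.monomial_smul_single, hs, PolynomialModule.single_zero]
  have hX0 : ∀ (p : ℕ) (y : PolynomialModule R Q),
      x 0 ^ p • toPull (MvPolynomial.finSuccEquiv K l).toRingEquiv y =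
        toPull (MvPolynomial.finSuccEquiv K l).toRingEquiv
          ((Polynomial.X : Polynomial R) ^ p • y : PolynomialModule R Q) := by
    intro p y
    show (MvPolynomial.finSuccEquiv K l (MvPolynomial.X 0 ^ p)) • y = _
    rw [map_pow, MvPolynomial.finSuccEquiv_X_zero]
    rfl
  let c : Coch x (PQ K l Q) 1 := fun i =>
    if h : i 0 = 0 then mk β ⟨x 0, h ▸ mem_mon x i 0⟩ else 0
  have hc : dd x (PQ K l Q) 1 c = 0 := by
    funext i
    rw [dd_apply, Fin.sum_univ_two]
    simp only [Fin.val_zero, pow_zero, one_smul, Fin.val_one, pow_one, neg_smul, Pi.zero_apply]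
    have key : ∀ k k' : Fin 2, k ≠ k' → i k = 0 → i k' ≠ 0 → ∀ (s : Fin 1 → Fin (l + 1))
        (hs : s 0 = i k) (hle : mon x s ≤ mon x i), res (PQ K l Q) hle (c s) = 0 := by
      intro k k' _ h0 h1 s hs hle
      have hcs : c s = mk β ⟨x 0, (hs.trans h0) ▸ mem_mon x s 0⟩ := dif_pos (hs.trans h0)
      rw [hcs, res_mk, ← LocalizedModule.zero_mk 1, LocalizedModule.mk_eq]
      obtain ⟨j, hj⟩ := Fin.exists_succ_eq.2 h1
      refine ⟨⟨x (i k'), mem_mon x i k'⟩, ?_⟩
      rw [one_smul, smul_zero, smul_zero, Submonoid.mk_smul, ← hj, hβ]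
    have h00 : (fun l' : Fin 1 => i ((0 : Fin 2).succAbove l')) 0 = i 1 := rfl
    have h01 : (fun l' : Fin 1 => i ((1 : Fin 2).succAbove l')) 0 = i 0 := rfl
    by_cases h0 : i 0 = 0
    · by_cases h1 : i 1 = 0
      · have he : (fun l' : Fin 1 => i ((0 : Fin 2).succAbove l')) =
            (fun l' : Fin 1 => i ((1 : Fin 2).succAbove l')) := by
          funext l'
          have : l' = 0 := Subsingleton.elim _ _
          subst this
          show i 1 = i 0
          rw [h0, h1]
        rw [res_congr x c he (mon_le x i 0) (mon_le x i 1)]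
        exact add_neg_cancel _
      · have e1 : c (fun l' : Fin 1 => i ((0 : Fin 2).succAbove l')) = 0 := dif_neg h1
        rw [e1, map_zero, key 0 1 (by decide) h0 h1 _ h01]
        simp
    · have e1 : c (fun l' : Fin 1 => i ((1 : Fin 2).succAbove l')) = 0 := dif_neg h0
      rw [e1, map_zero, neg_zero, add_zero]
      by_cases h1 : i 1 = 0
      · exact key 1 0 (by decide) h1 h0 _ h00 _
      · have e2 : c (fun l' : Fin 1 => i ((0 : Fin 2).succAbove l')) = 0 := dif_neg h1
        rw [e2, map_zero]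
  obtain ⟨b, hb⟩ := hv c hc
  have h1 := congrFun hb (fun _ => 0)
  rw [dd_apply, Fin.sum_univ_one] at h1
  simp only [Fin.val_zero, pow_zero, one_smul] at h1
  have h2 : c (fun _ => 0) = mk β ⟨x 0, mem_mon x (fun _ : Fin 1 => 0) 0⟩ := dif_pos rfl
  rw [h2] at h1
  obtain ⟨y, s, hys⟩ : ∃ (y : PQ K l Q) (s : mon x (fun l' : Fin 0 =>
      (fun _ : Fin 1 => (0 : Fin (l + 1))) ((0 : Fin 1).succAbove l'))),
      b (fun l' : Fin 0 => (fun _ : Fin 1 => (0 : Fin (l + 1))) ((0 : Fin 1).succAbove l')) =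
      mk y s := by
    generalize b _ = z
    induction z using LocalizedModule.induction_on with
    | h m s => exact ⟨m, s, rfl⟩
  have hs1 : (s : MvPolynomial (Fin (l + 1)) K) = 1 := by
    have h3 : (s : MvPolynomial (Fin (l + 1)) K) ∈ Submonoid.closure
      (Set.range fun k : Fin 0 => x ((fun _ : Fin 1 => (0 : Fin (l + 1)))
      ((0 : Fin 1).succAbove k))) := s.2
    have h4 : (Set.range fun k : Fin 0 => x ((fun _ : Fin 1 => (0 : Fin (l + 1)))
      ((0 : Fin 1).succAbove k))) = ∅ := Set.range_eq_empty _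
    rw [h4, Submonoid.closure_empty, Submonoid.mem_bot] at h3
    exact h3
  rw [hys, res_mk, LocalizedModule.mk_eq] at h1
  obtain ⟨u, hu⟩ := h1
  have hu2 : (u : MvPolynomial (Fin (l + 1)) K) ∈ Submonoid.closure
    (Set.range fun k : Fin 1 => x ((fun _ : Fin 1 => (0 : Fin (l + 1))) k)) := u.2
  have h5 : (Set.range fun k : Fin 1 => x ((fun _ : Fin 1 => (0 : Fin (l + 1))) k)) = {x 0} := by
    simp
  rw [h5, Submonoid.mem_closure_singleton] at hu2
  obtain ⟨p, hp⟩ := hu2
  simp only [Submonoid.smul_def] at hu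
  rw [hs1, one_smul, ← hp, smul_smul, ← pow_succ] at hu
  let y' : PolynomialModule R Q := y
  have h6 := hX0 (p + 1) y'
  have h7 := hX0 p β'
  have h8 : ((Polynomial.X : Polynomial R) ^ (p + 1) • y') =
      (Polynomial.X : Polynomial R) ^ p • β' := h6.symm.trans (hu.trans h7)
  have h9 := congrArg (fun z : PolynomialModule R Q => z.coeff p) h8
  simp only [X_pow_coeff (p + 1) _ p (by omega), X_pow_coeff'] at h9
  apply hq
  rw [h9]
  simp [β']

end Pool.Agent.H472R3.SF
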