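import Mathlib

set_option autoImplicit false

/-!
# Arrangements, logarithmic vector fields, Čech cohomology and stable freeness

All notions used in the statement of the result.
-/

namespace Pool.Agent.H472R3.SF

/-- The linear form `∑ j, a j * x_j`. -/
noncomputable def linearForm {K : Type} [Field K] {l : ℕ} (a : Fin l → K) :
    MvPolynomial (Fin l) K :=
  ∑ j, MvPolynomial.C (a j) * MvPolynomial.X j

/-- The hyperplane `{x | ∑ j, a j * x_j = 0}` in `K^l`. -/
def hyperplane {K : Type} [Field K] {l : ℕ} (a : Fin l → K) : Submodule K (Fin l → K) where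
  carrier := {x | ∑ j, a j * x j = 0}
  add_mem' := by
    intro x y hx hy
    simp only [Set.mem_ofPred_eq, Pi.add_apply, mul_add, Finset.sum_add_distrib] at hx hy ⊢
    rw [hx, hy, add_zero]
  zero_mem' := by simp
  smul_mem' := by
    intro c x hx
    simp only [Set.mem_ofPred_eq, Pi.smul_apply, smul_eq_mul] at hx ⊢
    have : ∑ j, a j * (c * x j) = c * ∑ j, a j * x j := by
      rw [Finset.mul_sum]; exact Finset.sum_congr rfl fun j _ => by ring
    rw [this, hx, mul_zero]

/-- `A` is the family of coefficient vectors of the defining forms of `d` distinct hyperplanes: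
an arrangement of `d` hyperplanes in the projective space of dimension `l - 1`. -/
def IsArrangement {K : Type} [Field K] {l d : ℕ} (A : Fin d → Fin l → K) : Prop :=
  (∀ i, A i ≠ 0) ∧ Function.Injective fun i => hyperplane (A i)

/-- The set of all intersections of subfamilies of the linear hyperplanes (the empty intersection
being `K^l`). -/
def intersections {K : Type} [Field K] {l d : ℕ} (A : Fin d → Fin l → K) :
    Set (Submodule K (Fin l → K)) :=
  {W | ∃ s : Set (Fin d), W = ⨅ i ∈ s, hyperplane (A i)}

/-- The intersection lattice: all intersections, ordered by reverse inclusion. -/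
abbrev Lattice {K : Type} [Field K] {l d : ℕ} (A : Fin d → Fin l → K) : Type :=
  (intersections A)ᵒᵈ

/-- The product `Q` of the defining forms. -/
noncomputable def defPoly {K : Type} [Field K] {l d : ℕ} (A : Fin d → Fin l → K) :
    MvPolynomial (Fin l) K :=
  ∏ i, linearForm (A i)

/-- The action of the vector field (derivation) `∑ j, θ_j ∂/∂x_j` on a polynomial. -/
noncomputable def act {K : Type} [Field K] {l : ℕ} (θ : Fin l → MvPolynomial (Fin l) K)
    (f : MvPolynomial (Fin l) K) : MvPolynomial (Fin l) K :=
  ∑ j, θ j * MvPolynomial.pderiv j f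

lemma act_add {K : Type} [Field K] {l : ℕ} (θ η : Fin l → MvPolynomial (Fin l) K)
    (f : MvPolynomial (Fin l) K) : act (θ + η) f = act θ f + act η f := by
  simp only [act, Pi.add_apply, add_mul, Finset.sum_add_distrib]

lemma act_zero {K : Type} [Field K] {l : ℕ} (f : MvPolynomial (Fin l) K) : act 0 f = 0 := by
  simp [act]

lemma act_smul {K : Type} [Field K] {l : ℕ} (r : MvPolynomial (Fin l) K)
    (θ : Fin l → MvPolynomial (Fin l) K)
    (f : MvPolynomial (Fin l) K) : act (r • θ) f = r * act θ f := by
  simp only [act, Pi.smul_apply, smul_eq_mul, Finset.mul_sum, mul_assoc]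

/-- The module `D₀(A)` of all derivations `θ = ∑ j, θ_j ∂/∂x_j` of the polynomial ring `S` over
`K` with `θ(α_i) ∈ α_i S` for each defining form `α_i` and `θ(Q) = 0`. -/
noncomputable def D0 {K : Type} [Field K] {l d : ℕ} (A : Fin d → Fin l → K) :
    Submodule (MvPolynomial (Fin l) K) (Fin l → MvPolynomial (Fin l) K) where
  carrier := {θ | (∀ i, linearForm (A i) ∣ act θ (linearForm (A i))) ∧ act θ (defPoly A) = 0}
  add_mem' := fun {θ η} hθ hη => by
    refine ⟨fun i => ?_, ?_⟩
    · rw [act_add]
      exact dvd_add (hθ.1 i) (hη.1 i)
    · rw [act_add, hθ.2, hη.2, add_zero]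
  zero_mem' := ⟨fun i => by rw [act_zero]; exact dvd_zero _, act_zero _⟩
  smul_mem' := fun r θ hθ => by
    refine ⟨fun i => ?_, ?_⟩
    · rw [act_smul]
      exact dvd_mul_of_dvd_right (hθ.1 i) r
    · rw [act_smul, hθ.2, mul_zero]

section cech

variable {R : Type} [CommRing R] {m : ℕ}

/-- The multiplicative set generated by `x_{σ 0}, x_{σ 1}, …`. -/
def mulSet (x : Fin m → R) {i : ℕ} (σ : Fin i → Fin m) : Submonoid R :=
  Submonoid.closure (Set.range fun k => x (σ k))

/-- Leaving out one index gives a smaller multiplicative set. -/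
theorem mulSet_face_le (x : Fin m → R) {i : ℕ} (σ : Fin (i + 1) → Fin m) (k : Fin (i + 1)) :
    mulSet x (fun l => σ (k.succAbove l)) ≤ mulSet x σ := by
  apply Submonoid.closure_mono
  rintro _ ⟨l, rfl⟩
  exact ⟨k.succAbove l, rfl⟩

variable (M : Type) [AddCommGroup M] [Module R M]

/-- The localization of `M` at the multiplicative set generated by `x_{σ 0}, x_{σ 1}, …`. For the
variables `x` of a polynomial ring and a graded module `M` these are the sections, over all twists
together, of the sheaf associated with `M` on the intersection of the basic open sets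
`x_{σ k} ≠ 0` of projective space. -/
abbrev Sections (x : Fin m → R) {i : ℕ} (σ : Fin i → Fin m) : Type :=
  LocalizedModule (mulSet x σ) M

/-- The canonical map between localizations at multiplicative sets `S ≤ T`. -/
noncomputable def restrict {S T : Submonoid R} (h : S ≤ T) (y : LocalizedModule S M) :
    LocalizedModule T M :=
  LocalizedModule.liftOfLE S T h y

/-- Čech `i`-cochains: families of sections indexed by all `(i+1)`-tuples of indices. -/
abbrev CechCochain (x : Fin m → R) (i : ℕ) : Type :=
  ∀ σ : Fin (i + 1) → Fin m, Sections M x σ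

/-- The Čech differential: `(dc)(σ) = ∑ k, (-1)^k c(σ without the k-th index)`, restricted to the
smaller open set. -/
noncomputable def cechD (x : Fin m → R) (i : ℕ) (c : CechCochain M x i) :
    CechCochain M x (i + 1) :=
  fun σ => ∑ k : Fin (i + 2), (-1 : R) ^ (k : ℕ) •
    restrict M (mulSet_face_le x σ k) (c fun l => σ (k.succAbove l))

/-- The `i`-th Čech cohomology vanishes: for `i ≥ 1` every `i`-cocycle is a coboundary (and for
`i = 0` every `0`-cocycle is zero). For the variables `x` of the polynomial ring
`K[x_0, …, x_n]` and a graded module `M` this says `H^i_* = 0` for the sheaf on projective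
`n`-space associated with `M`, where `H^i_*` is the direct sum of the `i`-th cohomology groups
of all twists (Čech complex of the standard cover). -/
def CohomologyVanishes (x : Fin m → R) : ℕ → Prop
  | 0 => ∀ c : CechCochain M x 0, cechD M x 0 c = 0 → c = 0
  | (i + 1) => ∀ c : CechCochain M x (i + 1), cechD M x (i + 1) c = 0 →
      ∃ b : CechCochain M x i, cechD M x i b = c

end cech

/-- An arrangement in projective `n`-space is stably free if `H^i_*` of its sheaf of logarithmic
vector fields (the sheaf associated with `D₀(A)`) vanishes for every `i` with `2 ≤ i ≤ n - 2`. -/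
def StablyFree {K : Type} [Field K] {n d : ℕ} (A : Fin d → Fin (n + 1) → K) : Prop :=
  ∀ i : ℕ, 2 ≤ i → i + 2 ≤ n →
    CohomologyVanishes (D0 A) (MvPolynomial.X : Fin (n + 1) → MvPolynomial (Fin (n + 1)) K) i

end Pool.Agent.H472R3.SF
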