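import Mathlib
import Pool.Agent.H472R3.SF.Defs
import Pool.Agent.H472R3.SF.Cech

set_option autoImplicit false

namespace Pool.Agent.H472R3.SF

variable {R : Type} [CommRing R] {m : ℕ} (x : Fin m → R)
variable (M : Type) [AddCommGroup M] [Module R M]

lemma cechD_eq (j : ℕ) (c : CechCochain M x j) : cechD M x j c = dd x M (j + 1) c :=
  funext fun σ => (dd_apply x (M := M) c σ).symm

lemma cohomologyVanishes_iff (i : ℕ) :
    CohomologyVanishes M x (i + 1) ↔ Van x M (i + 2) := by
  constructor
  · intro hv c hc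
    obtain ⟨b, hb⟩ := hv c ((cechD_eq x M (i + 1) c).trans hc)
    exact ⟨b, (cechD_eq x M i b).symm.trans hb⟩
  · intro hv c hc
    obtain ⟨b, hb⟩ := hv c ((cechD_eq x M (i + 1) c).symm.trans hc)
    exact ⟨b, (cechD_eq x M i b).trans hb⟩

/-- the variables as a family of elements -/
noncomputable abbrev XX (K : Type) [Field K] (m : ℕ) : Fin m → MvPolynomial (Fin m) K :=
  MvPolynomial.X

end Pool.Agent.H472R3.SF
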