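import Mathlib
import Pool.Agent.H472R3.SF.Defs
import Pool.Agent.H472R3.SF.Pull
import Pool.Agent.H158R3.Arr

set_option autoImplicit false
set_option linter.unusedSectionVars false

/-!
# The product of an arrangement with a point
-/

namespace Pool.Agent.H472R3.SF

open Pool.Agent.H158R3

variable {K : Type} [Field K] {l n : ℕ}

/-- polynomial ring in `l` variables -/
abbrev SS (K : Type) [Field K] (l : ℕ) : Type := MvPolynomial (Fin l) K

lemma linearForm_eq (v : Fin l → K) : linearForm v = linForm v := rfl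

/-- the Euler derivation -/
noncomputable def euler (K : Type) [Field K] (l : ℕ) : Derivation K (SS K l) (SS K l) :=
  MvPolynomial.mkDerivation K MvPolynomial.X

lemma euler_X (j : Fin l) : euler K l (MvPolynomial.X j) = MvPolynomial.X j := by
  simp [euler]

/-- `act` is the derivation with the given components -/
lemma act_eq (θ : Fin l → SS K l) (f : SS K l) :
    act θ f = MvPolynomial.mkDerivation K θ f := by
  have h : (∑ j, θ j • MvPolynomial.pderiv (R := K) j) = MvPolynomial.mkDerivation K θ := by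
    apply MvPolynomial.derivation_ext
    intro i
    rw [MvPolynomial.mkDerivation_X]
    rw [← Derivation.coeFnAddMonoidHom_apply, map_sum, Finset.sum_apply]
    rw [Finset.sum_eq_single i]
    · simp
    · intro j _ hj
      simp [MvPolynomial.pderiv_X_of_ne hj.symm]
    · simp
  rw [← h, ← Derivation.coeFnAddMonoidHom_apply, map_sum, Finset.sum_apply]
  rfl

lemma der_linForm (θ : Derivation K (SS K l) (SS K l)) (v : Fin l → K) :
    θ (linForm v) = ∑ j, MvPolynomial.C (v j) * θ (MvPolynomial.X j) := by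
  rw [linForm, map_sum]
  refine Finset.sum_congr rfl fun j _ => ?_
  rw [Derivation.leibniz]
  simp

lemma euler_linForm (v : Fin l → K) : euler K l (linForm v) = linForm v := by
  rw [der_linForm]
  simp only [euler_X]
  rfl

/-- the Euler vector field -/
noncomputable def evec (K : Type) [Field K] (l : ℕ) : Fin l → SS K l := MvPolynomial.X

lemma evec_mem (A : Fin n → Fin l → K) : evec K l ∈ Dv A := fun i => dvd_refl _

lemma der_prod (A : Fin n → Fin l → K) (θ : Derivation K (SS K l) (SS K l)) (h : Fin n → SS K l)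
    (hh : ∀ i, θ (linForm (A i)) = linForm (A i) * h i) (s : Finset (Fin n)) :
    θ (∏ i ∈ s, linForm (A i)) = (∑ i ∈ s, h i) * ∏ i ∈ s, linForm (A i) := by
  classical
  induction s using Finset.induction_on with
  | empty => simp
  | insert i s hi ih =>
    rw [Finset.prod_insert hi, Finset.sum_insert hi, Derivation.leibniz, ih, hh]
    simp only [smul_eq_mul]
    ring

lemma defPoly_eq (A : Fin n → Fin l → K) : defPoly A = ∏ i, linForm (A i) := rfl

lemma euler_defPoly (A : Fin n → Fin l → K) :
    euler K l (defPoly A) = (n : SS K l) * defPoly A := by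
  rw [defPoly_eq, der_prod A (euler K l) (fun _ => 1) (fun i => by rw [euler_linForm, mul_one])]
  simp

lemma defPoly_ne {A : Fin n → Fin l → K} (hA : ∀ i, A i ≠ 0) : defPoly A ≠ 0 :=
  Finset.prod_ne_zero_iff.2 fun i _ => linForm_ne_zero (hA i)

lemma comps_mem (A : Fin n → Fin l → K) (θ : D0 A) : θ.1 ∈ Dv A := fun i => by
  have := θ.2.1 i
  rw [linearForm_eq, act_eq, der_linForm] at this
  simpa only [MvPolynomial.mkDerivation_X] using this

/-- derivation with given components in `Dv` -/
lemma mkDer_dvd (A : Fin n → Fin l → K) (v : Fin l → SS K l) (hv : v ∈ Dv A) (i : Fin n) :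
    linForm (A i) ∣ MvPolynomial.mkDerivation K v (linForm (A i)) := by
  rw [der_linForm]
  simp only [MvPolynomial.mkDerivation_X]
  exact hv i

/-- logarithmic vector fields modulo the Euler vector field -/
abbrev QE (A : Fin n → Fin l → K) : Type :=
  Dv A ⧸ Submodule.span (SS K l) {(⟨evec K l, evec_mem A⟩ : Dv A)}

/-- `D₀ → D` -/
noncomputable def map0 (A : Fin n → Fin l → K) : D0 A →ₗ[SS K l] Dv A where
  toFun θ := ⟨θ.1, comps_mem A θ⟩
  map_add' θ η := rfl
  map_smul' r θ := rfl

/-- `D₀ → D / S θ_E` -/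
noncomputable def map1 (A : Fin n → Fin l → K) : D0 A →ₗ[SS K l] QE A :=
  (Submodule.mkQ _).comp (map0 A)

lemma map1_bij [CharZero K] (A : Fin n → Fin l → K) (hn : 0 < n) (hA : ∀ i, A i ≠ 0) :
    Function.Bijective (map1 A) := by
  have hQ := defPoly_ne hA
  have hn' : (n : SS K l) ≠ 0 := by exact_mod_cast hn.ne'
  constructor
  · rw [injective_iff_map_eq_zero]
    intro θ hθ
    have h1 : map0 A θ ∈
        Submodule.span (SS K l) {(⟨evec K l, evec_mem A⟩ : Dv A)} :=
      (Submodule.Quotient.mk_eq_zero _).1 hθ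
    rw [Submodule.mem_span_singleton] at h1
    obtain ⟨g, hg⟩ := h1
    have h2 : g • evec K l = θ.1 := congrArg Subtype.val hg
    have h3 : g * ((n : SS K l) * defPoly A) = 0 := by
      have h5 := θ.2.2
      rw [← h2, act_smul, act_eq] at h5
      rw [← euler_defPoly]
      exact h5
    have h4 : g = 0 := by
      rcases mul_eq_zero.1 h3 with h | h
      · exact h
      · exact absurd h (mul_ne_zero hn' hQ)
    apply Subtype.ext
    rw [← h2, h4, zero_smul]
    rfl
  · intro q
    obtain ⟨v, rfl⟩ := Submodule.Quotient.mk_surjective _ q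
    let θ : Derivation K (SS K l) (SS K l) := MvPolynomial.mkDerivation K v.1
    choose h hh using mkDer_dvd A v.1 v.2
    have h1 : θ (defPoly A) = (∑ i, h i) * defPoly A := der_prod A θ h hh Finset.univ
    let g : SS K l := MvPolynomial.C ((n : K)⁻¹) * ∑ i, h i
    have hg : g * (n : SS K l) = ∑ i, h i := by
      have : (n : SS K l) = MvPolynomial.C (n : K) := by simp
      have hn2 : (n : K) ≠ 0 := by exact_mod_cast hn.ne'
      show MvPolynomial.C ((n : K)⁻¹) * (∑ i, h i) * (n : SS K l) = _
      rw [this, mul_right_comm, ← MvPolynomial.C_mul, inv_mul_cancel₀ hn2, MvPolynomial.C_1,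
        one_mul]
    have hact : ∀ f, act (v.1 - g • evec K l) f = θ f - g * euler K l f := by
      intro f
      have h6 : act (v.1 - g • evec K l + g • evec K l) f = act v.1 f := by
        rw [sub_add_cancel]
      rw [act_add, act_smul, act_eq v.1, act_eq (evec K l)] at h6
      exact eq_sub_of_add_eq h6
    have h2 : v.1 - g • evec K l ∈ D0 A := by
      refine ⟨fun i => ?_, ?_⟩
      · rw [hact, linearForm_eq, euler_linForm]
        exact dvd_sub ⟨h i, hh i⟩ (dvd_mul_left _ _)
      · rw [hact, euler_defPoly, h1, ← mul_assoc, hg, sub_self]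
    refine ⟨⟨_, h2⟩, ?_⟩
    show Submodule.Quotient.mk _ = Submodule.Quotient.mk _
    rw [Submodule.Quotient.eq, Submodule.mem_span_singleton]
    refine ⟨-g, ?_⟩
    apply Subtype.ext
    show (-g) • evec K l = (v.1 - g • evec K l) - v.1
    rw [neg_smul]
    abel

/-- `D₀(A) ≃ D(A) / S θ_E`. -/
noncomputable def equiv1 [CharZero K] (A : Fin n → Fin l → K) (hn : 0 < n) (hA : ∀ i, A i ≠ 0) :
    D0 A ≃ₗ[SS K l] QE A :=
  LinearEquiv.ofBijective (map1 A) (map1_bij A hn hA)

/-- the product with a point: new variable `x_0`, the hyperplane `x_0 = 0` and the old ones -/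
def pt (b : Fin n → Fin l → K) : Fin (n + 1) → Fin (l + 1) → K :=
  Matrix.vecCons (Matrix.vecCons 1 0) (fun i => Matrix.vecCons 0 (b i))

/-- `K[x_0, …, x_l] = K[x_1, …, x_l][x_0]` -/
noncomputable abbrev EE (K : Type) [Field K] (l : ℕ) : SS K (l + 1) ≃ₐ[K] Polynomial (SS K l) :=
  MvPolynomial.finSuccEquiv K l

/-- component maps -/
noncomputable def comp (b : Fin n → Fin l → K) (j : Fin l) :
    PolynomialModule (SS K l) (Dv b) →ₗ[Polynomial (SS K l)] Polynomial (SS K l) :=
  PolynomialModule.equivPolynomialSelf.toLinearMap.comp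
    (pmap ((LinearMap.proj j).comp (Dv b).subtype))

lemma comp_coeff (b : Fin n → Fin l → K) (j : Fin l) (m : PolynomialModule (SS K l) (Dv b))
    (k : ℕ) : (comp b j m).coeff k = (m.coeff k).1 j := rfl

lemma EE_linForm_cons (v : Fin l → K) :
    EE K l (linForm (Matrix.vecCons 0 v)) = Polynomial.C (linForm v) := by
  simp only [linForm, map_sum, map_mul]
  rw [Fin.sum_univ_succ]
  simp only [Matrix.cons_val_zero, Matrix.cons_val_succ, map_zero, zero_mul, zero_add]
  refine Finset.sum_congr rfl fun j _ => ?_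
  rw [MvPolynomial.finSuccEquiv_X_succ, MvPolynomial.finSuccEquiv_apply]
  simp

lemma linForm_one_zero : linForm (Matrix.vecCons (1 : K) (0 : Fin l → K)) =
    MvPolynomial.X 0 := by
  simp [linForm, Fin.sum_univ_succ]

lemma EE_sum (v : Fin l → K) (θ : Fin (l + 1) → SS K (l + 1)) :
    EE K l (∑ j, MvPolynomial.C (Matrix.vecCons 0 v j) * θ j) =
      ∑ j : Fin l, Polynomial.C (MvPolynomial.C (v j)) * EE K l (θ j.succ) := by
  rw [Fin.sum_univ_succ]
  simp only [Matrix.cons_val_zero, Matrix.cons_val_succ, map_zero, zero_mul, zero_add,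
    map_sum, map_mul]
  refine Finset.sum_congr rfl fun j _ => ?_
  congr 1
  rw [MvPolynomial.finSuccEquiv_apply]
  simp

/-- the vector field with given components -/
noncomputable def toV (b : Fin n → Fin l → K) (m : PolynomialModule (SS K l) (Dv b)) :
    Fin (l + 1) → SS K (l + 1) :=
  Matrix.vecCons 0 fun j => (EE K l).symm (comp b j m)

lemma toV_add (b : Fin n → Fin l → K) (m m' : PolynomialModule (SS K l) (Dv b)) :
    toV b (m + m') = toV b m + toV b m' := by
  ext1 j
  refine Fin.cases ?_ (fun j => ?_) j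
  · simp [toV]
  · simp [toV]

lemma toV_smul (b : Fin n → Fin l → K) (f : Polynomial (SS K l))
    (m : PolynomialModule (SS K l) (Dv b)) :
    toV b (f • m) = (EE K l).symm f • toV b m := by
  ext1 j
  refine Fin.cases ?_ (fun j => ?_) j
  · simp [toV]
  · simp [toV]

lemma toV_mem (b : Fin n → Fin l → K) (m : PolynomialModule (SS K l) (Dv b)) :
    toV b m ∈ Dv (pt b) := by
  intro i
  refine Fin.cases ?_ (fun i => ?_) i
  · have h1 : pt b 0 = Matrix.vecCons (1 : K) (0 : Fin l → K) := rfl
    rw [h1, linForm_one_zero]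
    simp [Fin.sum_univ_succ, toV]
  · have h1 : pt b i.succ = Matrix.vecCons 0 (b i) := rfl
    rw [h1, ← map_dvd_iff (EE K l), EE_linForm_cons, EE_sum,
      Polynomial.C_dvd_iff_dvd_coeff]
    intro k
    rw [Polynomial.finsetSum_coeff]
    simp only [Polynomial.coeff_C_mul, toV, Matrix.cons_val_succ, AlgEquiv.apply_symm_apply,
      comp_coeff]
    exact (m.coeff k).2 i

/-- the polynomial module as a module over the polynomial ring in one more variable -/
abbrev PM (b : Fin n → Fin l → K) : Type :=
  Pull (EE K l).toRingEquiv (PolynomialModule (SS K l) (Dv b))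

/-- `D(b)[x_0] → D(pt b)` -/
noncomputable def mapD (b : Fin n → Fin l → K) : PM b →ₗ[SS K (l + 1)] Dv (pt b) where
  toFun m := ⟨toV b m, toV_mem b m⟩
  map_add' m m' := Subtype.ext (toV_add b m m')
  map_smul' r m := Subtype.ext ((toV_smul b (EE K l r) m).trans (by
    rw [AlgEquiv.symm_apply_apply]; rfl))

/-- `D(b)[x_0] → D(pt b) / S θ_E` -/
noncomputable def map2 (b : Fin n → Fin l → K) : PM b →ₗ[SS K (l + 1)] QE (pt b) :=
  (Submodule.mkQ _).comp (mapD b)

lemma toV_surj (b : Fin n → Fin l → K) (θ : Fin (l + 1) → SS K (l + 1)) (hθ : θ ∈ Dv (pt b))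
    (h0 : θ 0 = 0) : ∃ m : PolynomialModule (SS K l) (Dv b), toV b m = θ := by
  classical
  have hk : ∀ k : ℕ, (fun j : Fin l => (EE K l (θ j.succ)).coeff k) ∈ Dv b := by
    intro k i
    have h1 := hθ i.succ
    have h2 : pt b i.succ = Matrix.vecCons 0 (b i) := rfl
    rw [h2, ← map_dvd_iff (EE K l), EE_linForm_cons, EE_sum,
      Polynomial.C_dvd_iff_dvd_coeff] at h1
    have h3 := h1 k
    rw [Polynomial.finsetSum_coeff] at h3
    simpa only [Polynomial.coeff_C_mul] using h3
  let N : ℕ := (∑ j : Fin l, (EE K l (θ j.succ)).natDegree) + 1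
  let m : PolynomialModule (SS K l) (Dv b) := PolynomialModule.ofCoeff (SS K l)
    (Finsupp.onFinset (Finset.range N) (fun k => (⟨_, hk k⟩ : Dv b)) (by
      intro k hk'
      by_contra hcon
      apply hk'
      have hkN : N ≤ k := by simpa using hcon
      apply Subtype.ext
      funext j
      have hall : (EE K l (θ j.succ)).natDegree < k := by
        have h4 : (EE K l (θ j.succ)).natDegree ≤ ∑ j : Fin l, (EE K l (θ j.succ)).natDegree :=
          Finset.single_le_sum (f := fun j : Fin l => (EE K l (θ j.succ)).natDegree)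
            (fun _ _ => Nat.zero_le _) (Finset.mem_univ j)
        omega
      exact Polynomial.coeff_eq_zero_of_natDegree_lt hall))
  refine ⟨m, ?_⟩
  ext1 j
  refine Fin.cases ?_ (fun j => ?_) j
  · simp only [toV, Matrix.cons_val_zero, h0]
  · simp only [toV, Matrix.cons_val_succ]
    rw [AlgEquiv.symm_apply_eq]
    ext1 k
    rw [comp_coeff]
    rfl

lemma toV_eq_zero (b : Fin n → Fin l → K) (m : PolynomialModule (SS K l) (Dv b))
    (h : toV b m = 0) : m = 0 := by
  ext k : 2
  apply Subtype.ext
  funext j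
  have h2 := congrFun h j.succ
  simp only [toV, Matrix.cons_val_succ, Pi.zero_apply, EmbeddingLike.map_eq_zero_iff] at h2
  have h3 := congrArg (fun p => Polynomial.coeff p k) h2
  simp only [comp_coeff, Polynomial.coeff_zero] at h3
  exact h3

lemma map2_bij (b : Fin n → Fin l → K) : Function.Bijective (map2 b) := by
  constructor
  · rw [injective_iff_map_eq_zero]
    intro m hm
    have h1 : mapD b m ∈
        Submodule.span (SS K (l + 1)) {(⟨evec K (l + 1), evec_mem (pt b)⟩ : Dv (pt b))} :=
      (Submodule.Quotient.mk_eq_zero _).1 hm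
    rw [Submodule.mem_span_singleton] at h1
    obtain ⟨g, hg⟩ := h1
    have h2 : g • evec K (l + 1) = toV b m := congrArg Subtype.val hg
    have h3 : g = 0 := by
      have : g * MvPolynomial.X 0 = 0 := congrFun h2 0
      rcases mul_eq_zero.1 this with h | h
      · exact h
      · exact absurd h (MvPolynomial.X_ne_zero _)
    rw [h3, zero_smul] at h2
    exact toV_eq_zero b m h2.symm
  · intro q
    obtain ⟨θ, rfl⟩ := Submodule.Quotient.mk_surjective _ q
    obtain ⟨g, hg⟩ : MvPolynomial.X 0 ∣ θ.1 0 := by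
      have := θ.2 0
      have h1 : pt b 0 = Matrix.vecCons (1 : K) (0 : Fin l → K) := rfl
      rw [h1, linForm_one_zero] at this
      simpa [Fin.sum_univ_succ] using this
    let E : Dv (pt b) := ⟨evec K (l + 1), evec_mem (pt b)⟩
    have h2 : (θ - g • E).1 0 = 0 := by
      show θ.1 0 - g * MvPolynomial.X 0 = 0
      rw [hg, mul_comm, sub_self]
    obtain ⟨m, hm⟩ := toV_surj b _ (θ - g • E).2 h2
    refine ⟨m, ?_⟩
    show Submodule.Quotient.mk _ = Submodule.Quotient.mk _
    rw [Submodule.Quotient.eq, Submodule.mem_span_singleton]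
    refine ⟨-g, ?_⟩
    have h3 : mapD b m = θ - g • E := Subtype.ext hm
    rw [h3, neg_smul]
    show - (g • E) = θ - g • E - θ
    abel

/-- `D₀(pt b) ≃ D(b)[x_0]`. -/
noncomputable def equivPt [CharZero K] (b : Fin n → Fin l → K) (hA : ∀ i, pt b i ≠ 0) :
    D0 (pt b) ≃ₗ[SS K (l + 1)] PM b :=
  (equiv1 (pt b) (Nat.succ_pos n) hA).trans (LinearEquiv.ofBijective (map2 b) (map2_bij b)).symm

end Pool.Agent.H472R3.SF
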