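import Mathlib
import Pool.Agent.H472R3.SF.Point
import Pool.Agent.H158R3.Lat
import Pool.Agent.H158R3.Facts

set_option autoImplicit false
set_option linter.unusedSectionVars false

/-!
# Intersection lattices of products with a point, and the two explicit arrangements

The part on the two arrangements of ten planes in `K^4` is copied from helper158's results file.
-/

namespace Pool.Agent.H472R3.SF

open Pool.Agent.H158R3

variable {K : Type} [Field K] {l n : ℕ}

/-- putting a zero in front -/
def J (K : Type) [Field K] (l : ℕ) : (Fin l → K) →ₗ[K] (Fin (l + 1) → K) where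
  toFun v := Matrix.vecCons 0 v
  map_add' v w := by
    ext j
    refine Fin.cases ?_ (fun j => ?_) j <;> simp
  map_smul' c v := by
    ext j
    refine Fin.cases ?_ (fun j => ?_) j <;> simp

lemma J_inj : Function.Injective (J K l) := by
  intro v w h
  ext j
  have := congrFun h j.succ
  exact this

lemma pt_comp (b : Fin n → Fin l → K) : (pt b) ∘ Fin.succ = (J K l) ∘ b := rfl

lemma indep_pt (b : Fin n → Fin l → K) (t : Set (Fin (n + 1))) :
    LinearIndepOn K (pt b) t ↔ LinearIndepOn K b (Fin.succ ⁻¹' t) := by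
  constructor
  · intro h
    have h1 : LinearIndepOn K (pt b) (Fin.succ '' (Fin.succ ⁻¹' t)) :=
      h.mono (Set.image_preimage_subset _ _)
    have h2 := h1.comp_of_image (Fin.succ_injective n).injOn
    rw [pt_comp] at h2
    exact h2.of_comp (J K l)
  · intro h
    have h1 : LinearIndepOn K ((J K l) ∘ b) (Fin.succ ⁻¹' t) := h.map_injOn (J K l) J_inj.injOn
    rw [← pt_comp] at h1
    have h2 : LinearIndepOn K (pt b) (Fin.succ '' (Fin.succ ⁻¹' t)) := h1.image_of_comp Fin.succ (pt b)
    have h3 : LinearIndepOn K (pt b) (insert 0 (Fin.succ '' (Fin.succ ⁻¹' t))) := by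
      refine h2.insert ?_
      intro hmem
      have h4 : ∀ v ∈ Submodule.span K (pt b '' (Fin.succ '' (Fin.succ ⁻¹' t))), v 0 = 0 := by
        intro v hv
        induction hv using Submodule.span_induction with
        | mem v hv =>
          obtain ⟨_, ⟨i, -, rfl⟩, rfl⟩ := hv
          rfl
        | zero => rfl
        | add v w _ _ hv hw => rw [Pi.add_apply, hv, hw, add_zero]
        | smul c v _ hv => rw [Pi.smul_apply, hv, smul_zero]
      have h5 := h4 _ hmem
      exact one_ne_zero h5
    apply h3.mono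
    intro i hi
    by_cases h0 : i = 0
    · left; exact h0
    · right
      obtain ⟨j, rfl⟩ := Fin.exists_succ_eq.2 h0
      exact ⟨j, hi, rfl⟩

lemma hyperplane_eq (a : Fin l → K) : hyperplane a = hyp a := rfl

lemma intersections_eq (A : Fin n → Fin l → K) : intersections A = LL A := by
  unfold intersections LL
  simp only [hyperplane_eq]

lemma lattice_pt {a b : Fin n → Fin l → K}
    (h : ∀ t : Set (Fin n), LinearIndepOn K a t ↔ LinearIndepOn K b t) :
    Nonempty (Lattice (pt a) ≃o Lattice (pt b)) := by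
  have h1 : Nonempty (LL (pt a) ≃o LL (pt b)) :=
    lattice_iso_of_indep fun t => by rw [indep_pt, indep_pt]; exact h _
  have h2 : Nonempty ((intersections (pt a)) ≃o (intersections (pt b))) := by
    rw [intersections_eq, intersections_eq]
    exact h1
  obtain ⟨e⟩ := h2
  exact ⟨e.dual⟩

lemma mem_hyp (a x : Fin l → K) : x ∈ hyp a ↔ ∑ j, a j * x j = 0 := Iff.rfl

lemma isArrangement_pt {b : Fin n → Fin l → K} (h : IsArrangement b) : IsArrangement (pt b) := by
  constructor
  · intro i
    refine Fin.cases ?_ (fun i => ?_) i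
    · intro h0
      exact one_ne_zero (congrFun h0 0)
    · intro h0
      apply h.1 i
      ext j
      exact congrFun h0 j.succ
  · intro i j
    simp only [hyperplane_eq]
    have key : ∀ j : Fin n, hyp (pt b 0) ≠ hyp (pt b j.succ) := by
      intro j heq
      have h1 : (Matrix.vecCons 1 0 : Fin (l + 1) → K) ∈ hyp (pt b j.succ) := by
        rw [mem_hyp]
        have h2 : pt b j.succ = Matrix.vecCons 0 (b j) := rfl
        rw [h2, Fin.sum_univ_succ]
        simp
      rw [← heq, mem_hyp] at h1
      have h2 : pt b 0 = Matrix.vecCons (1 : K) (0 : Fin l → K) := rfl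
      rw [h2, Fin.sum_univ_succ] at h1
      simp at h1
    refine Fin.cases ?_ (fun i => ?_) i
    · refine Fin.cases ?_ (fun j => ?_) j
      · intro _; rfl
      · intro heq; exact absurd heq (key j)
    · refine Fin.cases ?_ (fun j => ?_) j
      · intro heq; exact absurd heq.symm (key i)
      · intro heq
        congr 1
        apply h.2
        simp only [hyperplane_eq]
        have h3 : ∀ (k : Fin n) (x : Fin l → K),
            (Matrix.vecCons 0 x : Fin (l + 1) → K) ∈ hyp (pt b k.succ) ↔ x ∈ hyp (b k) := by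
          intro k x
          rw [mem_hyp, mem_hyp]
          have h2 : pt b k.succ = Matrix.vecCons 0 (b k) := rfl
          rw [h2, Fin.sum_univ_succ]
          simp
        ext x
        rw [← h3, ← h3, heq]

/-! ### The two arrangements of ten planes in `K^4` -/

/-- explicit `4 × 4` determinant -/
def det4 (m : Fin 4 → Fin 4 → ℤ) : ℤ :=
  let d3 := fun (r1 r2 r3 c1 c2 c3 : Fin 4) =>
    m r1 c1 * (m r2 c2 * m r3 c3 - m r2 c3 * m r3 c2) -
    m r1 c2 * (m r2 c1 * m r3 c3 - m r2 c3 * m r3 c1) +
    m r1 c3 * (m r2 c1 * m r3 c2 - m r2 c2 * m r3 c1)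
  m 0 0 * d3 1 2 3 1 2 3 - m 0 1 * d3 1 2 3 0 2 3 + m 0 2 * d3 1 2 3 0 1 3 -
    m 0 3 * d3 1 2 3 0 1 2

lemma det4_eq (m : Fin 4 → Fin 4 → ℤ) :
    Matrix.det (Matrix.of (fun i j => (m i j : K))) = ((det4 m : ℤ) : K) := by
  simp only [Matrix.det_succ_row_zero, Fin.sum_univ_succ, det4, Fin.succAbove, Matrix.submatrix]
  simp
  ring

/-- The first arrangement: `w - z, w`, and eight planes through the `w`-axis. -/
def M1 : Fin 10 → Fin 4 → ℤ :=
  ![![1, 0, 0, -1], ![1, 0, 0, 0], ![0, 1, -2, 2], ![0, 1, 0, 2], ![0, 0, 1, 0], ![0, 1, -1, 0],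
    ![0, 1, 0, -1], ![0, 0, 1, -2], ![0, 1, -1, 1], ![0, 1, 0, 0]]

/-- The second arrangement. -/
def M2 : Fin 10 → Fin 4 → ℤ :=
  ![![1, 0, 0, -1], ![1, 0, 0, 0], ![0, 2, -1, -2], ![0, 1, 0, -1], ![0, 0, 1, 0], ![0, 1, -1, 0],
    ![0, 1, 0, -4], ![0, 0, 1, -2], ![0, 1, -1, -2], ![0, 1, 0, 0]]

lemma minors_iff : ∀ i j k l : Fin 10, i < j → j < k → k < l →
    (det4 ![M1 i, M1 j, M1 k, M1 l] = 0 ↔ det4 ![M2 i, M2 j, M2 k, M2 l] = 0) := by
  decide +kernel

/-- cast to the field -/
def toK (K : Type) [Field K] (M : Fin 10 → Fin 4 → ℤ) : Fin 10 → Fin 4 → K :=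
  fun i j => (M i j : K)

lemma minors_iff' [CharZero K] (e : Fin 4 ↪o Fin 10) :
    Matrix.det (Matrix.of (fun i => toK K M1 (e i))) = 0 ↔
      Matrix.det (Matrix.of (fun i => toK K M2 (e i))) = 0 := by
  have h1 : ∀ M : Fin 10 → Fin 4 → ℤ, Matrix.det (Matrix.of (fun i => toK K M (e i))) =
      ((det4 ![M (e 0), M (e 1), M (e 2), M (e 3)] : ℤ) : K) := by
    intro M
    rw [← det4_eq]
    congr 1
    ext i j
    fin_cases i <;> rfl
  rw [h1, h1, Int.cast_eq_zero, Int.cast_eq_zero]
  exact minors_iff _ _ _ _ (e.strictMono (by decide)) (e.strictMono (by decide))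
    (e.strictMono (by decide))

/-- a set of four indices giving a basis for both arrangements -/
def eb : Fin 4 → Fin 10 := ![0, 1, 4, 9]

lemma span_top [CharZero K] (M : Fin 10 → Fin 4 → ℤ)
    (hM : det4 (fun i => M (eb i)) ≠ 0) :
    Submodule.span K (Set.range (toK K M)) = ⊤ := by
  have h1 : Matrix.det (Matrix.of (fun i => toK K M (eb i))) ≠ 0 := by
    have : Matrix.det (Matrix.of (fun i => toK K M (eb i))) =
        ((det4 (fun i => M (eb i)) : ℤ) : K) := (det4_eq _)
    rw [this]
    exact_mod_cast hM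
  have h2 : LinearIndependent K (fun i => toK K M (eb i)) := by
    have := Matrix.linearIndependent_rows_of_det_ne_zero h1
    exact this
  have h3 := h2.span_eq_top_of_card_eq_finrank' (by simp)
  rw [eq_top_iff, ← h3]
  apply Submodule.span_mono
  rintro _ ⟨i, rfl⟩
  exact ⟨eb i, rfl⟩

lemma indep_iff [CharZero K] (t : Set (Fin 10)) :
    LinearIndepOn K (toK K M1) t ↔ LinearIndepOn K (toK K M2) t := by
  constructor
  · exact indep_of_minors (span_top M1 (by decide +kernel)) (fun e h => by
      rwa [Ne, ← minors_iff' e]) t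
  · exact indep_of_minors (span_top M2 (by decide +kernel)) (fun e h => by
      rwa [Ne, minors_iff' e]) t

/-- some `2 × 2` minor of the two rows is nonzero -/
def someMinor (u v : Fin 4 → ℤ) : Prop := ∃ j k : Fin 4, u j * v k - u k * v j ≠ 0

instance (u v : Fin 4 → ℤ) : Decidable (someMinor u v) := by unfold someMinor; infer_instance

lemma hyperplane_ne [CharZero K] (u v : Fin 4 → ℤ) (h : someMinor u v) :
    hyperplane (fun j => (u j : K)) ≠ hyperplane (fun j => (v j : K)) := by
  obtain ⟨j, k, hjk⟩ := h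
  rw [hyperplane_eq, hyperplane_eq]
  intro heq
  have hne : j ≠ k := by
    rintro rfl
    exact hjk (sub_self _)
  have h1 : (Pi.single j (u k : K) - Pi.single k (u j : K) : Fin 4 → K) ∈
      hyp (fun j => (u j : K)) := by
    show ∑ i, (u i : K) * (Pi.single j (u k : K) - Pi.single k (u j : K) : Fin 4 → K) i = 0
    simp only [Pi.sub_apply, mul_sub, Finset.sum_sub_distrib, Pi.single_apply, mul_ite, mul_zero,
      Finset.sum_ite_eq', Finset.mem_univ, if_true]
    ring
  rw [heq] at h1
  have h2 : ∑ i, (v i : K) * (Pi.single j (u k : K) - Pi.single k (u j : K) : Fin 4 → K) i = 0 := h1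
  simp only [Pi.sub_apply, mul_sub, Finset.sum_sub_distrib, Pi.single_apply, mul_ite, mul_zero,
      Finset.sum_ite_eq', Finset.mem_univ, if_true] at h2
  apply hjk
  have h3 : ((u j * v k - u k * v j : ℤ) : K) = 0 := by
    push_cast
    linear_combination -h2
  exact_mod_cast h3

lemma isArrangement [CharZero K] (M : Fin 10 → Fin 4 → ℤ)
    (h : ∀ i j : Fin 10, i ≠ j → someMinor (M i) (M j)) : IsArrangement (toK K M) := by
  constructor
  · intro i h0
    obtain ⟨i', hi'⟩ := exists_ne i
    obtain ⟨j, k, hjk⟩ := h i i' hi'.symm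
    have h1 : ∀ j, M i j = 0 := by
      intro j
      have := congrFun h0 j
      have h2 : ((M i j : ℤ) : K) = 0 := this
      exact_mod_cast h2
    rw [h1, h1] at hjk
    simp at hjk
  · intro i j hij
    by_contra hne
    exact hyperplane_ne (M i) (M j) (h i j hne) hij

lemma gad_ag : toK K M1 = gad (ag K) := by
  funext i j
  fin_cases i <;> fin_cases j <;> simp [toK, M1, gad, ag, Mg]

lemma gad_ab : toK K M2 = gad (ab K) := by
  funext i j
  fin_cases i <;> fin_cases j <;> simp [toK, M2, gad, ab, Mb]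

lemma arr1 [CharZero K] : IsArrangement (toK K M1) := isArrangement M1 (by decide +kernel)

lemma arr2 [CharZero K] : IsArrangement (toK K M2) := isArrangement M2 (by decide +kernel)

end Pool.Agent.H472R3.SF
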