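import Mathlib
import Pool.Agent.H472R3.SF.Bad
import Pool.Agent.H472R3.SF.Bridge
import Pool.Agent.H472R3.SF.LatPt

set_option autoImplicit false
set_option linter.unusedSectionVars false

/-!
# Stable freeness is not determined by the intersection lattice
-/

namespace Pool.Agent.H472R3.SF

open Pool.Agent.H158R3

variable {K : Type} [Field K]

section chain

variable {n : ℕ} (a : Fin n → Fin 3 → K)

/-- `K[w,x,y,z] ≃ K[x,y,z][w]` as rings -/
noncomputable abbrev e4 (K : Type) [Field K] : S4 K ≃+* PP K := (ee K).toRingEquiv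

/-- `D(gad a) ≃ ker ρ` -/
noncomputable def kerL : Pull (e4 K) (LinearMap.ker (rho a)) ≃ₗ[S4 K] Dv (gad a) :=
  { kerEquiv a with
    map_smul' := fun r x => (kerEquiv_smul a (ee K r) x).trans (by
      show (ee K).symm (ee K r) • kerEquiv a x = r • kerEquiv a x
      rw [AlgEquiv.symm_apply_apply]) }

/-- `D(gad a) → T` -/
noncomputable def f4 : Dv (gad a) →ₗ[S4 K] Pull (e4 K) (TT a) :=
  (pullMap (e4 K) (LinearMap.ker (rho a)).subtype).comp (kerL a).symm.toLinearMap

/-- `T → I` -/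
noncomputable def g4 : Pull (e4 K) (TT a) →ₗ[S4 K] Pull (e4 K) (LinearMap.range (rho a)) :=
  pullMap (e4 K) (rho a).rangeRestrict

lemma f4_inj : Function.Injective (f4 a) := by
  intro x y h
  apply (kerL a).symm.injective
  exact Subtype.ext h

lemma g4_surj : Function.Surjective (g4 a) :=
  pullMap_surjective (e4 K) (rho a).surjective_rangeRestrict

lemma fg4_exact : Function.Exact (f4 a) (g4 a) := by
  intro y
  constructor
  · intro h
    have h1 : rho a y = 0 := congrArg Subtype.val h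
    let z : Pull (e4 K) (LinearMap.ker (rho a)) := (⟨y, h1⟩ : LinearMap.ker (rho a))
    refine ⟨kerL a z, ?_⟩
    have h2 : (kerL a).symm (kerL a z) = z := LinearEquiv.symm_apply_apply _ _
    exact congrArg (fun t : LinearMap.ker (rho a) => t.1) h2
  · rintro ⟨x, rfl⟩
    apply Subtype.ext
    exact (((kerL a).symm x) : LinearMap.ker (rho a)).2

/-- `I → K[x,y,z]` -/
noncomputable def i4 : Pull (e4 K) (LinearMap.range (rho a)) →ₗ[S4 K] Pull (e4 K) (Rz K) :=
  pullMap (e4 K) (LinearMap.range (rho a)).subtype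

/-- `K[x,y,z] → K[x,y,z] / I` -/
noncomputable def q4 : Pull (e4 K) (Rz K) →ₗ[S4 K] Pull (e4 K) (Rz K ⧸ LinearMap.range (rho a)) :=
  pullMap (e4 K) (Submodule.mkQ (LinearMap.range (rho a)))

lemma iq4_exact : Function.Exact (i4 a) (q4 a) :=
  pullMap_exact (e4 K) (fun x => by
    rw [Submodule.mkQ_apply, Submodule.Quotient.mk_eq_zero]
    simp)

/-- `K[v,w,x,y,z] ≃ K[w,x,y,z][v]` as rings -/
noncomputable abbrev e5 (K : Type) [Field K] : SS K 5 ≃+* Polynomial (S4 K) :=
  (EE K 4).toRingEquiv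

theorem bad (ha : ∀ i, a i ≠ 0) (b : R3 K) (h0 : ∀ θ : Dv a, ¬ zz K ∣ b + θ.1 2)
    (h1 : ∃ θ : Dv a, θ.1 2 = MvPolynomial.X 0 * b)
    (h2 : ∃ θ : Dv a, θ.1 2 = MvPolynomial.X 1 * b) :
    ¬ Van (XX K 5) (PM (gad a)) 3 := by
  intro hv
  -- vanishing for the middle terms
  have hT : Van (XX K 5) (Pull (e5 K) (PolynomialModule (S4 K) (Pull (e4 K) (TT a)))) 2 := by
    have p1 : PdLT (S4 K) (Pull (e4 K) (TT a)) 2 := pdLT_pull (e4 K) (pd_TT a ha)
    have p2 := pdLT_polynomialModule _ p1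
    exact van_of_pdLT 1 _ (pdLT_pull (e5 K) p2) 2 (by norm_num)
  have hR : Van (XX K 5) (Pull (e5 K) (PolynomialModule (S4 K) (Pull (e4 K) (Rz K)))) 1 := by
    have p0 : PdLT (PP K) (Rz K) 2 := by
      apply pdLT_polynomial
      exact pdLT_one_of_projective (inferInstanceAs (Module.Projective (R3 K) (R3 K)))
    have p1 : PdLT (S4 K) (Pull (e4 K) (Rz K)) 2 := pdLT_pull (e4 K) p0
    have p2 := pdLT_polynomialModule _ p1
    exact van_of_pdLT 1 _ (pdLT_pull (e5 K) p2) 1 (by norm_num)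
  have hI : Van (XX K 5) (Pull (e5 K) (PolynomialModule (S4 K)
      (Pull (e4 K) (LinearMap.range (rho a))))) 2 :=
    van_right (XX K 5) (pullMap (e5 K) (pmap (f4 a))) (pullMap (e5 K) (pmap (g4 a)))
      (pullMap_injective (e5 K) (pmap_injective (f4_inj a)))
      (pullMap_surjective (e5 K) (pmap_surjective (g4_surj a)))
      (pullMap_exact (e5 K) (pmap_exact (fg4_exact a))) hT hv
  have hQ : Van (XX K 5) (Pull (e5 K) (PolynomialModule (S4 K)
      (Pull (e4 K) (Rz K ⧸ LinearMap.range (rho a))))) 1 :=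
    van_right (XX K 5) (pullMap (e5 K) (pmap (i4 a))) (pullMap (e5 K) (pmap (q4 a)))
      (pullMap_injective (e5 K) (pmap_injective
        (pullMap_injective (e4 K) (Submodule.injective_subtype _))))
      (pullMap_surjective (e5 K) (pmap_surjective
        (pullMap_surjective (e4 K) (Submodule.mkQ_surjective _))))
      (pullMap_exact (e5 K) (pmap_exact (iq4_exact a))) hR hI
  -- the socle element
  let mkq : R3 K → Pull (e4 K) (Rz K ⧸ LinearMap.range (rho a)) :=
    fun u => (Submodule.Quotient.mk (toRz u) : Rz K ⧸ LinearMap.range (rho a))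
  have hzero : ∀ u : R3 K, toRz u ∈ LinearMap.range (rho a) → mkq u = 0 := fun u hu =>
    (Submodule.Quotient.mk_eq_zero _).2 hu
  have hact : ∀ (s : S4 K) (u : R3 K), s • mkq u = mkq ((ee K s).eval (zz K) * u) :=
    fun s u => rfl
  have hz : toRz (zz K * b) ∈ LinearMap.range (rho a) := by
    rw [mul_comm]; exact range_smul a b _ (z_mem_range a)
  refine not_van_one (Pull (e4 K) (Rz K ⧸ LinearMap.range (rho a))) (mkq b) ?_ ?_ hQ
  · intro key
    have hb : toRz b ∈ LinearMap.range (rho a) := (Submodule.Quotient.mk_eq_zero _).1 key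
    obtain ⟨θ, hθ⟩ := range_elim a b hb
    exact h0 θ hθ
  · intro j
    rw [hact]
    apply hzero
    have e0 : ee K (MvPolynomial.X 0) = Polynomial.X := MvPolynomial.finSuccEquiv_X_zero
    have e1 : ∀ j : Fin 3, ee K (MvPolynomial.X j.succ) = Polynomial.C (MvPolynomial.X j) :=
      fun j => MvPolynomial.finSuccEquiv_X_succ (j := j)
    refine Fin.cases ?_ (fun j => ?_) j
    · rw [e0, Polynomial.eval_X]
      exact hz
    · rw [e1, Polynomial.eval_C]
      fin_cases j
      · obtain ⟨θ, hθ⟩ := h1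
        have := theta_mem_range a θ
        rw [hθ] at this
        exact this
      · obtain ⟨θ, hθ⟩ := h2
        have := theta_mem_range a θ
        rw [hθ] at this
        exact this
      · exact hz

end chain

theorem good {n : ℕ} (b : Fin n → Fin 4 → K) (h : PdLT (S4 K) (Dv b) 2) :
    Van (XX K 5) (PM b) 3 :=
  van_of_pdLT 1 _ (pdLT_pull (e5 K) (pdLT_polynomialModule _ h)) 3 (by norm_num)

variable [CharZero K]

lemma stablyFree_iff {n : ℕ} (b : Fin n → Fin 4 → K) (hA : ∀ i, pt b i ≠ 0) :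
    StablyFree (pt b) ↔ Van (XX K 5) (PM b) 3 := by
  have h1 : StablyFree (pt b) ↔ CohomologyVanishes (D0 (pt b)) (XX K 5) 2 := by
    constructor
    · intro h; exact h 2 le_rfl le_rfl
    · intro h i hi hi2
      obtain rfl : i = 2 := by omega
      exact h
  rw [h1, cohomologyVanishes_iff (XX K 5) (D0 (pt b)) 1]
  constructor
  · exact van_of_equiv (XX K 5) (equivPt b hA)
  · exact van_of_equiv (XX K 5) (equivPt b hA).symm

theorem main : ∃ A₁ A₂ : Fin 11 → Fin 5 → K, IsArrangement A₁ ∧ IsArrangement A₂ ∧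
    Nonempty (Lattice A₁ ≃o Lattice A₂) ∧ StablyFree A₁ ∧ ¬ StablyFree A₂ := by
  have ha1 : IsArrangement (pt (toK K M1)) := isArrangement_pt arr1
  have ha2 : IsArrangement (pt (toK K M2)) := isArrangement_pt arr2
  refine ⟨pt (toK K M1), pt (toK K M2), ha1, ha2, lattice_pt indep_iff, ?_, ?_⟩
  · rw [stablyFree_iff _ ha1.1, gad_ag]
    exact good _ pd_ag
  · rw [stablyFree_iff _ ha2.1, gad_ab]
    exact bad (ab K) ab_ne (bb K) bad_h0 ⟨⟨thX K, thX_mem K⟩, thX_two K⟩
      ⟨⟨thY K, thY_mem K⟩, thY_two K⟩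

end Pool.Agent.H472R3.SF
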